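import Mathlib

/-!
# The one-or-all token game with twelve piles

The position with six piles of size `5` and six piles of size `6` is a `P`-position, although the
number `6` of its odd piles does not belong to the set `S₁₂`.
-/

set_option autoImplicit false

namespace Pool.Agent.Results.MP_b8aaf5_co.TwelvePiles

/-- Discard the piles that are empty. -/
def discard (s : Multiset ℕ) : Multiset ℕ := s.filter (fun a => 0 < a)

/-- The moves of the one-or-all token game. A position is a multiset of positive integers (the sizes of
the piles). A unimove removes one token from a single pile, an allmove (possible when there is a pile)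
removes one token from every pile; piles that become empty are discarded. -/
inductive Move (s : Multiset ℕ) : Multiset ℕ → Prop
  | uni (a : ℕ) (ha : a ∈ s) (hpos : 0 < a) : Move s (discard (s.erase a + {a - 1}))
  | all (h : ∃ a ∈ s, 0 < a) : Move s (discard (s.map (fun a => a - 1)))

theorem sum_discard_le (s : Multiset ℕ) : (discard s).sum ≤ s.sum := by
  unfold discard
  induction s using Multiset.induction_on with
  | empty => simp
  | cons a s ih =>
    by_cases h : 0 < a
    · rw [Multiset.filter_cons_of_pos (p := fun a => 0 < a) _ h]; simp only [Multiset.sum_cons]; omega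
    · rw [Multiset.filter_cons_of_neg (p := fun a => 0 < a) _ h]; simp only [Multiset.sum_cons]; omega

theorem sum_pred_le (s : Multiset ℕ) : (s.map (fun a => a - 1)).sum ≤ s.sum := by
  induction s using Multiset.induction_on with
  | empty => simp
  | cons a s ih => simp only [Multiset.map_cons, Multiset.sum_cons]; omega

theorem Move.sum_lt {s t : Multiset ℕ} (h : Move s t) : t.sum < s.sum := by
  cases h with
  | uni a ha hpos =>
    have h1 := sum_discard_le (s.erase a + {a - 1})
    have h2 : a + (s.erase a).sum = s.sum := by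
      rw [← Multiset.sum_cons, Multiset.cons_erase ha]
    simp only [Multiset.sum_add, Multiset.sum_singleton] at h1
    omega
  | all h =>
    obtain ⟨a, ha, hpos⟩ := h
    have h1 := sum_discard_le (s.map (fun a => a - 1))
    have h2 : (s.map (fun a => a - 1)).sum < s.sum := by
      obtain ⟨u, rfl⟩ := Multiset.exists_cons_of_mem ha
      have := sum_pred_le u
      simp only [Multiset.map_cons, Multiset.sum_cons]
      omega
    omega

/-- A position is a `P`-position if the player about to move loses under optimal play, where the player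
who makes the last move wins: every move leads to a position that is not a `P`-position. -/
def PPosition (s : Multiset ℕ) : Prop := ∀ t, (h : Move s t) → ¬ PPosition t
termination_by s.sum
decreasing_by exact h.sum_lt

/-- The set `S_k`: for odd `k` all even numbers in `[0, k]`; for even `k` the even numbers below `k / 2`
and the odd numbers in `[0, k]` above `k / 2`. -/
def predicted (k : ℕ) : Set ℕ :=
  {j | j ≤ k ∧ ((Odd k ∧ Even j) ∨ (Even k ∧ ((Even j ∧ 2 * j < k) ∨ (Odd j ∧ k < 2 * j))))}

/-- A code for a position with piles of sizes at most `6`: the numbers of piles of each size. -/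
structure Code where
  a : ℕ
  b : ℕ
  c : ℕ
  d : ℕ
  e : ℕ
  f : ℕ

/-- The position with a given code. -/
def toM (x : Code) : Multiset ℕ :=
  Multiset.replicate x.a 1 + Multiset.replicate x.b 2 + Multiset.replicate x.c 3 +
    Multiset.replicate x.d 4 + Multiset.replicate x.e 5 + Multiset.replicate x.f 6

/-- The number of piles. -/
def piles (x : Code) : ℕ := x.a + x.b + x.c + x.d + x.e + x.f

/-- The number of tokens. -/
def tokens (x : Code) : ℕ := x.a + 2 * x.b + 3 * x.c + 4 * x.d + 5 * x.e + 6 * x.f

/-- The codes of the options of a position. -/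
def moves (x : Code) : List Code :=
  (if 0 < x.a then [⟨x.a - 1, x.b, x.c, x.d, x.e, x.f⟩] else []) ++
  (if 0 < x.b then [⟨x.a + 1, x.b - 1, x.c, x.d, x.e, x.f⟩] else []) ++
  (if 0 < x.c then [⟨x.a, x.b + 1, x.c - 1, x.d, x.e, x.f⟩] else []) ++
  (if 0 < x.d then [⟨x.a, x.b, x.c + 1, x.d - 1, x.e, x.f⟩] else []) ++
  (if 0 < x.e then [⟨x.a, x.b, x.c, x.d + 1, x.e - 1, x.f⟩] else []) ++
  (if 0 < x.f then [⟨x.a, x.b, x.c, x.d, x.e + 1, x.f - 1⟩] else []) ++
  (if 0 < piles x then [⟨x.b, x.c, x.d, x.e, x.f, 0⟩] else [])

/-- The number encoding a code with entries at most `12`. -/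
def num (x : Code) : ℕ :=
  x.a + 13 * (x.b + 13 * (x.c + 13 * (x.d + 13 * (x.e + 13 * x.f))))

/-- The code encoded by a number. -/
def dec (n : ℕ) : Code :=
  ⟨n % 13, n / 13 % 13, n / 169 % 13, n / 2197 % 13, n / 28561 % 13, n / 371293⟩

/-- Binary search trees of natural numbers. -/
inductive Tree
  | leaf : Tree
  | node : Tree → ℕ → Tree → Tree

/-- Membership test in a search tree. -/
def Tree.mem (n : ℕ) : Tree → Bool
  | .leaf => false
  | .node l k r => if n < k then l.mem n else if k < n then r.mem n else true

/-- All entries of the tree satisfy a Boolean test. -/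
def Tree.all (p : ℕ → Bool) : Tree → Bool
  | .leaf => true
  | .node l k r => l.all p && p k && r.all p

theorem Tree.all_mem (p : ℕ → Bool) (n : ℕ) :
    ∀ t : Tree, t.all p = true → t.mem n = true → p n = true := by
  intro t
  induction t with
  | leaf => intro _ h; simp [Tree.mem] at h
  | node l k r ihl ihr =>
    intro h1 h2
    simp only [Tree.all, Bool.and_eq_true] at h1
    unfold Tree.mem at h2
    split_ifs at h2 with h3 h4
    · exact ihl h1.1.1 h2
    · exact ihr h1.2 h2
    · have : n = k := by omega
      rw [this]; exact h1.1.2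

theorem uni_mem {x : Code} {a : ℕ} (ha : a ∈ toM x) :
    (a = 1 ∧ 0 < x.a) ∨ (a = 2 ∧ 0 < x.b) ∨ (a = 3 ∧ 0 < x.c) ∨ (a = 4 ∧ 0 < x.d) ∨
      (a = 5 ∧ 0 < x.e) ∨ (a = 6 ∧ 0 < x.f) := by
  unfold toM at ha
  simp only [Multiset.mem_add, Multiset.mem_replicate] at ha
  omega

theorem count_toM (x : Code) (k : ℕ) : Multiset.count k (toM x) =
    (if 1 = k then x.a else 0) + (if 2 = k then x.b else 0) + (if 3 = k then x.c else 0) +
    (if 4 = k then x.d else 0) + (if 5 = k then x.e else 0) + (if 6 = k then x.f else 0) := by
  unfold toM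
  simp only [Multiset.count_add, Multiset.count_replicate]

theorem count_uni (s : Multiset ℕ) (a k : ℕ) :
    Multiset.count k (discard (s.erase a + {a - 1})) =
      if 0 < k then Multiset.count k s - (if k = a then 1 else 0) + (if k = a - 1 then 1 else 0)
      else 0 := by
  unfold discard
  by_cases hk : 0 < k
  · rw [Multiset.count_filter_of_pos (p := fun a => 0 < a) hk, if_pos hk, Multiset.count_add,
      Multiset.count_singleton]
    by_cases h : k = a
    · subst h
      simp [Multiset.count_erase_self]
    · rw [Multiset.count_erase_of_ne h]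
      simp [h]
  · rw [if_neg hk, Multiset.count_filter_of_neg (p := fun a => 0 < a) hk]

theorem all_eq (x : Code) : discard ((toM x).map (fun a => a - 1)) =
    toM ⟨x.b, x.c, x.d, x.e, x.f, 0⟩ := by
  unfold discard toM
  simp only [Multiset.map_add, Multiset.map_replicate, Multiset.filter_add]
  have h0 : ∀ n : ℕ, Multiset.filter (fun a => 0 < a) (Multiset.replicate n (1 - 1)) = 0 := by
    intro n
    rw [Multiset.filter_eq_nil]
    intro a ha
    have := Multiset.eq_of_mem_replicate ha
    omega
  have h1 : ∀ n k : ℕ, 0 < k → Multiset.filter (fun a => 0 < a) (Multiset.replicate n k) =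
      Multiset.replicate n k := by
    intro n k hk
    rw [Multiset.filter_eq_self]
    intro a ha
    have := Multiset.eq_of_mem_replicate ha
    omega
  rw [h0, h1 _ _ (by norm_num), h1 _ _ (by norm_num), h1 _ _ (by norm_num), h1 _ _ (by norm_num),
    h1 _ _ (by norm_num)]
  simp

theorem exists_code {x : Code} {t : Multiset ℕ} (h : Move (toM x) t) :
    ∃ y ∈ moves x, t = toM y := by
  cases h with
  | uni a ha hpos =>
    rcases uni_mem ha with ⟨rfl, h⟩ | ⟨rfl, h⟩ | ⟨rfl, h⟩ | ⟨rfl, h⟩ | ⟨rfl, h⟩ | ⟨rfl, h⟩
    · refine ⟨⟨x.a - 1, x.b, x.c, x.d, x.e, x.f⟩, by simp [moves, h], ?_⟩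
      ext k; rw [count_uni, count_toM, count_toM]; simp only; split_ifs <;> omega
    · refine ⟨⟨x.a + 1, x.b - 1, x.c, x.d, x.e, x.f⟩, by simp [moves, h], ?_⟩
      ext k; rw [count_uni, count_toM, count_toM]; simp only; split_ifs <;> omega
    · refine ⟨⟨x.a, x.b + 1, x.c - 1, x.d, x.e, x.f⟩, by simp [moves, h], ?_⟩
      ext k; rw [count_uni, count_toM, count_toM]; simp only; split_ifs <;> omega
    · refine ⟨⟨x.a, x.b, x.c + 1, x.d - 1, x.e, x.f⟩, by simp [moves, h], ?_⟩
      ext k; rw [count_uni, count_toM, count_toM]; simp only; split_ifs <;> omega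
    · refine ⟨⟨x.a, x.b, x.c, x.d + 1, x.e - 1, x.f⟩, by simp [moves, h], ?_⟩
      ext k; rw [count_uni, count_toM, count_toM]; simp only; split_ifs <;> omega
    · refine ⟨⟨x.a, x.b, x.c, x.d, x.e + 1, x.f - 1⟩, by simp [moves, h], ?_⟩
      ext k; rw [count_uni, count_toM, count_toM]; simp only; split_ifs <;> omega
  | all h =>
    refine ⟨⟨x.b, x.c, x.d, x.e, x.f, 0⟩, ?_, all_eq x⟩
    obtain ⟨a, ha, -⟩ := h
    have hp : 0 < piles x := by
      unfold piles
      have := uni_mem ha
      omega
    simp [moves, hp]

theorem move_of_mem {x y : Code} (h : y ∈ moves x) : Move (toM x) (toM y) := by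
  unfold moves at h
  simp only [List.mem_append] at h
  have huni : ∀ a, a ∈ toM x → 0 < a →
      (∀ k, Multiset.count k (discard ((toM x).erase a + {a - 1})) = Multiset.count k (toM y)) →
      Move (toM x) (toM y) := by
    intro a h1 h2 h3
    rw [← Multiset.ext.2 h3]
    exact Move.uni a h1 h2
  have hmem : ∀ a, a ∈ toM x ↔ (a = 1 ∧ 0 < x.a) ∨ (a = 2 ∧ 0 < x.b) ∨ (a = 3 ∧ 0 < x.c) ∨
      (a = 4 ∧ 0 < x.d) ∨ (a = 5 ∧ 0 < x.e) ∨ (a = 6 ∧ 0 < x.f) := by
    intro a
    refine ⟨uni_mem, fun h => ?_⟩
    unfold toM
    simp only [Multiset.mem_add, Multiset.mem_replicate]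
    omega
  rcases h with (((((h | h) | h) | h) | h) | h) | h
  · split_ifs at h with hp
    · simp only [List.mem_singleton] at h
      subst h
      refine huni 1 ((hmem 1).2 (by omega)) (by norm_num) (fun k => ?_)
      rw [count_uni, count_toM, count_toM]; simp only; split_ifs <;> omega
    · simp at h
  · split_ifs at h with hp
    · simp only [List.mem_singleton] at h
      subst h
      refine huni 2 ((hmem 2).2 (by omega)) (by norm_num) (fun k => ?_)
      rw [count_uni, count_toM, count_toM]; simp only; split_ifs <;> omega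
    · simp at h
  · split_ifs at h with hp
    · simp only [List.mem_singleton] at h
      subst h
      refine huni 3 ((hmem 3).2 (by omega)) (by norm_num) (fun k => ?_)
      rw [count_uni, count_toM, count_toM]; simp only; split_ifs <;> omega
    · simp at h
  · split_ifs at h with hp
    · simp only [List.mem_singleton] at h
      subst h
      refine huni 4 ((hmem 4).2 (by omega)) (by norm_num) (fun k => ?_)
      rw [count_uni, count_toM, count_toM]; simp only; split_ifs <;> omega
    · simp at h
  · split_ifs at h with hp
    · simp only [List.mem_singleton] at h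
      subst h
      refine huni 5 ((hmem 5).2 (by omega)) (by norm_num) (fun k => ?_)
      rw [count_uni, count_toM, count_toM]; simp only; split_ifs <;> omega
    · simp at h
  · split_ifs at h with hp
    · simp only [List.mem_singleton] at h
      subst h
      refine huni 6 ((hmem 6).2 (by omega)) (by norm_num) (fun k => ?_)
      rw [count_uni, count_toM, count_toM]; simp only; split_ifs <;> omega
    · simp at h
  · split_ifs at h with hp
    · simp only [List.mem_singleton] at h
      subst h
      rw [← all_eq x]
      refine Move.all ?_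
      unfold piles at hp
      by_cases ha : x.a = 0
      · by_cases hb : x.b = 0
        · by_cases hc : x.c = 0
          · by_cases hd : x.d = 0
            · by_cases he : x.e = 0
              · exact ⟨6, (hmem 6).2 (by omega), by norm_num⟩
              · exact ⟨5, (hmem 5).2 (by omega), by norm_num⟩
            · exact ⟨4, (hmem 4).2 (by omega), by norm_num⟩
          · exact ⟨3, (hmem 3).2 (by omega), by norm_num⟩
        · exact ⟨2, (hmem 2).2 (by omega), by norm_num⟩
      · exact ⟨1, (hmem 1).2 (by omega), by norm_num⟩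
    · simp at h

/-- The `P`-positions used in the proof, by the numbers of their codes. -/
def tree : Tree :=
  (.node (.node (.node (.node (.node (.node (.node (.node .leaf 0 .leaf) 13 .leaf) 15 (.node (.node
  .leaf 17 .leaf) 19 .leaf)) 21 (.node (.node (.node .leaf 23 .leaf) 26 .leaf) 28 (.node (.node
  .leaf 30 .leaf) 32 .leaf))) 34 (.node (.node (.node (.node .leaf 36 .leaf) 39 .leaf) 52 (.node
  (.node .leaf 54 .leaf) 56 .leaf)) 58 (.node (.node (.node .leaf 65 .leaf) 71 .leaf) 78 (.node
  .leaf 80 .leaf)))) 82 (.node (.node (.node (.node (.node .leaf 211 .leaf) 213 .leaf) 215 (.node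
  (.node .leaf 351 .leaf) 353 .leaf)) 355 (.node (.node (.node .leaf 357 .leaf) 359 .leaf) 377
  (.node (.node .leaf 379 .leaf) 381 .leaf))) 383 (.node (.node (.node (.node .leaf 403 .leaf) 405
  .leaf) 407 (.node (.node .leaf 429 .leaf) 431 .leaf)) 520 (.node (.node (.node .leaf 522 .leaf)
  524 .leaf) 526 (.node .leaf 528 .leaf))))) 546 (.node (.node (.node (.node (.node (.node .leaf 548
  .leaf) 550 .leaf) 552 (.node (.node .leaf 572 .leaf) 574 .leaf)) 576 (.node (.node (.node .leaf
  598 .leaf) 600 .leaf) 624 (.node (.node .leaf 689 .leaf) 691 .leaf))) 693 (.node (.node (.node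
  (.node .leaf 695 .leaf) 715 .leaf) 741 (.node (.node .leaf 858 .leaf) 860 .leaf)) 862 (.node
  (.node (.node .leaf 884 .leaf) 886 .leaf) 910 (.node .leaf 1027 .leaf)))) 2197 (.node (.node
  (.node (.node (.node .leaf 2199 .leaf) 2210 .leaf) 2212 (.node (.node .leaf 2225 .leaf) 2236
  .leaf)) 2393 (.node (.node (.node .leaf 2395 .leaf) 2397 .leaf) 2399 (.node .leaf 4394 .leaf)))
  4407 (.node (.node (.node (.node .leaf 4420 .leaf) 4577 .leaf) 4579 (.node (.node .leaf 4581
  .leaf) 4583 .leaf)) 4745 (.node (.node (.node .leaf 4747 .leaf) 4749 .leaf) 4751 (.node .leaf 4771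
  .leaf)))))) 4773 (.node (.node (.node (.node (.node (.node (.node .leaf 4775 .leaf) 4797 .leaf)
  4799 (.node (.node .leaf 4823 .leaf) 6591 .leaf)) 6593 (.node (.node (.node .leaf 6595 .leaf) 6608
  .leaf) 6617 (.node (.node .leaf 6774 .leaf) 6776 .leaf))) 6931 (.node (.node (.node (.node .leaf
  6933 .leaf) 6935 .leaf) 6955 (.node (.node .leaf 6957 .leaf) 6959 .leaf)) 6981 (.node (.node
  (.node .leaf 6983 .leaf) 7007 .leaf) 7267 (.node .leaf 7269 .leaf)))) 7271 (.node (.node (.node
  (.node (.node .leaf 7293 .leaf) 7295 .leaf) 7319 (.node (.node .leaf 7605 .leaf) 7607 .leaf)) 7631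
  (.node (.node (.node .leaf 8814 .leaf) 8816 .leaf) 8829 (.node (.node .leaf 8840 .leaf) 8842
  .leaf))) 8855 (.node (.node (.node (.node .leaf 8866 .leaf) 8868 .leaf) 8892 (.node (.node .leaf
  9023 .leaf) 9126 .leaf)) 9128 (.node (.node (.node .leaf 9141 .leaf) 9152 .leaf) 9154 (.node .leaf
  9167 .leaf))))) 9178 (.node (.node (.node (.node (.node (.node .leaf 9191 .leaf) 9204 .leaf) 9309
  (.node (.node .leaf 9466 .leaf) 9479 .leaf)) 9490 (.node (.node (.node .leaf 9503 .leaf) 9516
  .leaf) 9647 (.node (.node .leaf 9815 .leaf) 9828 .leaf))) 10140 (.node (.node (.node (.node .leaf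
  11063 .leaf) 11220 .leaf) 11532 (.node (.node .leaf 11844 .leaf) 12012 .leaf)) 13182 (.node (.node
  (.node .leaf 13184 .leaf) 13197 .leaf) 13208 (.node .leaf 13210 .leaf)))) 13223 (.node (.node
  (.node (.node (.node .leaf 13234 .leaf) 13236 .leaf) 13247 (.node (.node .leaf 13260 .leaf) 13365
  .leaf)) 13522 (.node (.node (.node .leaf 13535 .leaf) 13546 .leaf) 13548 (.node .leaf 13559
  .leaf))) 13572 (.node (.node (.node (.node .leaf 13858 .leaf) 13860 .leaf) 13871 (.node (.node
  .leaf 13884 .leaf) 158184 .leaf)) 172224 (.node (.node (.node .leaf 176280 .leaf) 180336 .leaf)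
  182520 (.node .leaf 2399124 .leaf)))))))

/-- The test at one position of the list: every move has an answer inside the list. -/
def test (n : ℕ) : Bool :=
  (moves (dec n)).all (fun y => (moves y).any (fun z => tree.mem (num z)))

theorem tree_test : tree.all test = true := by decide +kernel

theorem piles_le {x y : Code} (h : y ∈ moves x) : piles y ≤ piles x := by
  unfold moves at h
  simp only [List.mem_append] at h
  rcases h with (((((h | h) | h) | h) | h) | h) | h
  all_goals
    split_ifs at h with hp
    · simp only [List.mem_singleton] at h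
      subst h
      unfold piles
      simp only
      omega
    · simp at h

theorem tokens_lt {x y : Code} (h : y ∈ moves x) : tokens y < tokens x := by
  unfold moves at h
  simp only [List.mem_append] at h
  rcases h with (((((h | h) | h) | h) | h) | h) | h
  all_goals
    split_ifs at h with hp
    · simp only [List.mem_singleton] at h
      subst h
      first
      | (unfold tokens; simp only; omega)
      | (unfold piles at hp; unfold tokens; simp only; omega)
    · simp at h

theorem dec_num (x : Code) (h : piles x ≤ 12) : dec (num x) = x := by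
  obtain ⟨a, b, c, d, e, f⟩ := x
  unfold piles at h
  simp only at h
  unfold num dec
  simp only [Code.mk.injEq]
  refine ⟨?_, ?_, ?_, ?_, ?_, ?_⟩ <;> omega

theorem ppos (n : ℕ) : ∀ x : Code, tokens x = n → piles x ≤ 12 → tree.mem (num x) = true →
    PPosition (toM x) := by
  induction n using Nat.strong_induction_on with
  | _ n ih =>
    intro x hx hpiles hmem
    have htest := Tree.all_mem test (num x) tree tree_test hmem
    unfold test at htest
    rw [dec_num x hpiles, List.all_eq_true] at htest
    rw [PPosition]
    intro t ht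
    obtain ⟨y, hy, rfl⟩ := exists_code ht
    have h2 := htest y hy
    rw [List.any_eq_true] at h2
    obtain ⟨z, hz, hzm⟩ := h2
    have hzP : PPosition (toM z) := by
      have h3 := tokens_lt hy
      have h4 := tokens_lt hz
      refine ih (tokens z) (by omega) z rfl ?_ hzm
      exact le_trans (piles_le hz) (le_trans (piles_le hy) hpiles)
    rw [PPosition]
    intro hall
    exact hall (toM z) (move_of_mem hz) hzP

/-- There are a number `k ≥ 3` and a position with exactly `k` piles, each containing more than
`⌈k / 3⌉` tokens, which is a `P`-position while its number of odd piles does not lie in `S_k`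
(the proof takes `k = 12` and the position with six piles of size `5` and six piles of size `6`). -/
theorem result : ∃ k : ℕ, 3 ≤ k ∧ ∃ s : Multiset ℕ, Multiset.card s = k ∧
    (∀ a ∈ s, ⌈(k : ℚ) / 3⌉₊ < a) ∧ PPosition s ∧
    Multiset.card (s.filter (fun a => Odd a)) ∉ predicted k := by
  refine ⟨12, by norm_num, toM ⟨0, 0, 0, 0, 6, 6⟩, ?_, ?_, ?_, ?_⟩
  · simp [toM]
  · intro a ha
    have h4 : ⌈((12 : ℕ) : ℚ) / 3⌉₊ = 4 := by
      rw [Nat.ceil_eq_iff (by norm_num)]
      norm_num
    rw [h4]
    have := uni_mem ha
    simp only at this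
    omega
  · exact ppos _ _ rfl (by decide) (by decide +kernel)
  · have h6 : Multiset.card ((toM ⟨0, 0, 0, 0, 6, 6⟩).filter (fun a => Odd a)) = 6 := by
      decide +kernel
    rw [h6]
    unfold predicted
    simp only [Set.mem_ofPred_eq]
    decide

end Pool.Agent.Results.MP_b8aaf5_co.TwelvePiles
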